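import Pool.Agent.Helper2.CT.Six

/-!
# Extremal Hodge diamonds

Let `X`, `Y` be Hodge rings of dimension `n` which are related by a Mukai isometry. If all Hodge
numbers `h^{p,q}(X)` with `p + q < n` are as small as possible (`1` for `p = q`, `0` for `p ≠ q`),
then all Hodge numbers of `X` and `Y` agree. If the Chern numbers `c_1 c_{n-1}` agree as well, this
has to be assumed only for `p + q ≤ n - 4` and for `p + q` of the other parity than `n`.
-/

set_option autoImplicit false

namespace Pool.Agent.Hodge81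

open Module Finset

/-- the smallest possible Hodge numbers -/
def least (p q : ℕ) : ℕ := if p = q then 1 else 0

section Basic

variable {n : ℕ} {A : Type*} [Ring A] [Algebra ℂ A] [FiniteDimensional ℂ A]

theorem HodgeRing.h_le_add (X : HodgeRing n A) {p q : ℕ} :
    ∀ {t : ℕ}, p + q + 2 * t ≤ n + 1 → X.h p q ≤ X.h (p + t) (q + t) := by
  intro t
  induction t with
  | zero => intro _; exact le_rfl
  | succ t ih =>
    intro h
    exact (ih (by omega)).trans (X.h_le_succ (p := p + t) (q := q + t) (by omega))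

theorem HodgeRing.least_le_aux (X : HodgeRing n A) {p q : ℕ} (h : p + q ≤ n) :
    least p q ≤ X.h p q := by
  unfold least
  split_ifs with e
  · subst e
    have h1 := X.h_le_add (p := 0) (q := 0) (t := p) (by omega)
    rw [zero_add] at h1
    have h0 : X.h 0 0 = 1 := X.connected
    omega
  · exact Nat.zero_le _

theorem HodgeRing.least_le (X : HodgeRing n A) {p q : ℕ} (hp : p ≤ n) (hq : q ≤ n) :
    least p q ≤ X.h p q := by
  rcases Nat.lt_or_ge n (p + q) with h | h
  · rw [← X.h_serre hp hq]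
    have h1 := X.least_le_aux (p := n - p) (q := n - q) (by omega)
    refine le_trans (le_of_eq ?_) h1
    unfold least
    by_cases e : p = q
    · rw [if_pos e, if_pos (by omega)]
    · rw [if_neg e, if_neg (by omega)]
  · exact X.least_le_aux h

/-- if the Hodge numbers in degrees `p + q < n` with a property are minimal, so are those above -/
theorem HodgeRing.eq_least (X : HodgeRing n A) {P : ℕ → Prop}
    (h : ∀ p q, p + q < n → P (n - (p + q)) → X.h p q = least p q) {p q : ℕ} (hp : p ≤ n)
    (hq : q ≤ n) (hP : n < p + q → P (p + q - n)) (hP' : p + q < n → P (n - (p + q)))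
    (hne : p + q ≠ n) : X.h p q = least p q := by
  rcases Nat.lt_or_ge n (p + q) with h1 | h1
  · rw [← X.h_serre hp hq]
    have h2 := h (n - p) (n - q) (by omega) (by
      have := hP h1
      rwa [show n - (n - p + (n - q)) = p + q - n by omega])
    rw [h2]
    unfold least
    by_cases e : p = q
    · rw [if_pos e, if_pos (by omega)]
    · rw [if_neg e, if_neg (by omega)]
  · exact h p q (by omega) (hP' (by omega))

end Basic

variable {n : ℕ} {A B : Type*} [Ring A] [Algebra ℂ A] [FiniteDimensional ℂ A]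
  [Ring B] [Algebra ℂ B] [FiniteDimensional ℂ B]

/-- columns without middle: minimal Hodge numbers of `X` in one column -/
theorem column_odd {X : HodgeRing n A} {Y : HodgeRing n B} {phi : A ≃ₗ[ℂ] B}
    (hphi : IsMukaiIsometry X Y phi)
    (h : ∀ p q, p + q < n → Odd (n - (p + q)) → X.h p q = least p q) {p q : ℕ}
    (hpq : Odd (p + q + n)) : X.h p q = Y.h p q := by
  refine reduce X Y (fun p q => Odd (p + q + n)) (fun p q h => by rwa [add_comm q p])
    (fun p q hp hq h => by
      rw [Nat.odd_iff] at h ⊢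
      omega) (fun p q hqp hpqn hodd => ?_) p q hpq
  have hs := column_sum hphi (a := p - q) (b := 0) (m := n - (p - q)) (by omega) (Or.inr rfl)
  have hle : ∀ j ∈ range (n - (p - q) + 1), X.h (p - q + j) (0 + j) ≤ Y.h (p - q + j) (0 + j) := by
    intro j hj
    rw [mem_range] at hj
    rw [Nat.odd_iff] at hodd
    rw [X.eq_least (P := fun k => Odd k) h (by omega) (by omega)
      (fun _ => by rw [Nat.odd_iff]; omega) (fun _ => by rw [Nat.odd_iff]; omega) (by omega)]
    exact Y.least_le (by omega) (by omega)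
  have h1 := (Finset.sum_eq_sum_iff_of_le hle).1 hs q (by rw [mem_range]; omega)
  rw [zero_add, show p - q + q = p by omega] at h1
  exact h1

/-- first theorem: extremal Hodge diamonds -/
theorem extremal {X : HodgeRing n A} {Y : HodgeRing n B} {phi : A ≃ₗ[ℂ] B}
    (hphi : IsMukaiIsometry X Y phi) (h : ∀ p q, p + q < n → X.h p q = least p q) (p q : ℕ) :
    X.h p q = Y.h p q := by
  refine reduce X Y (fun _ _ => True) (fun _ _ _ => trivial) (fun _ _ _ _ _ => trivial)
    (fun p q hqp hpq _ => ?_) p q trivial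
  rcases Nat.even_or_odd (p + q + n) with he | ho
  swap
  · exact column_odd hphi (fun p q h1 _ => h p q h1) ho
  rw [Nat.even_iff] at he
  obtain ⟨a, r, hn⟩ : ∃ a r, p = a + q ∧ n = a + 2 * r := ⟨p - q, (n - (p - q)) / 2, by omega, by omega⟩
  obtain ⟨rfl, hn⟩ := hn
  have hm := main_aux hphi (p := a + r) (q := r) (by omega)
  rw [show min (a + r) r = r by omega] at hm
  have key : ∀ s, s < r → X.h (a + s) s = Y.h (a + s) s := by
    intro s hs
    have hle : ∀ k ∈ range (r + 1), (if k % 2 = 1 then X.h (a + r - k) (r - k) else 0) ≤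
        (if k % 2 = 1 then Y.h (a + r - k) (r - k) else 0) := by
      intro k hk
      rw [mem_range] at hk
      split_ifs with e
      · rw [h _ _ (by omega)]
        exact Y.least_le (by omega) (by omega)
      · exact le_rfl
    have h1 := (Finset.sum_eq_sum_iff_of_le hle).1 hm.1 1 (by rw [mem_range]; omega)
    rw [if_pos rfl, if_pos rfl, h _ _ (by omega)] at h1
    have h2 := Y.h_le_add (p := a + s) (q := s) (t := r - 1 - s) (by omega)
    rw [show a + s + (r - 1 - s) = a + r - 1 by omega, show s + (r - 1 - s) = r - 1 by omega,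
      ← h1] at h2
    have h3 := Y.least_le (p := a + s) (q := s) (by omega) (by omega)
    rw [h _ _ (by omega)]
    have h4 : least (a + r - 1) (r - 1) = least (a + s) s := by
      unfold least
      by_cases e : a = 0
      · rw [if_pos (by omega), if_pos (by omega)]
      · rw [if_neg (by omega), if_neg (by omega)]
    omega
  rcases Nat.lt_or_ge q r with h1 | h1
  · exact key q h1
  · have hq : q = r := by omega
    subst hq
    have hm2 := hm.2
    rw [Finset.sum_range_succ', Finset.sum_range_succ'] at hm2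
    have e : ∑ k ∈ range q, (if (k + 1) % 2 = 0 then X.h (a + q - (k + 1)) (q - (k + 1)) else 0) =
        ∑ k ∈ range q, (if (k + 1) % 2 = 0 then Y.h (a + q - (k + 1)) (q - (k + 1)) else 0) := by
      refine Finset.sum_congr rfl fun k hk => ?_
      rw [mem_range] at hk
      split_ifs with e
      · rw [show a + q - (k + 1) = a + (q - (k + 1)) by omega]
        exact key _ (by omega)
      · rfl
    rw [e, if_pos rfl, if_pos rfl, Nat.sub_zero, Nat.sub_zero] at hm2
    omega

/-! ### the version with the Chern number -/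

theorem sum_symm (r : ℕ) (f : ℕ → ℤ) :
    ∑ j ∈ range (2 * r + 1), f j =
      f r + ∑ k ∈ range r, (f (r + (k + 1)) + f (r - (k + 1))) := by
  rw [Finset.sum_add_distrib, show 2 * r + 1 = r + (r + 1) by ring, Finset.sum_range_add,
    Finset.sum_range_succ', ← Finset.sum_range_reflect f r]
  have e : ∑ j ∈ range r, f (r - 1 - j) = ∑ k ∈ range r, f (r - (k + 1)) :=
    Finset.sum_congr rfl fun k _ => by rw [show r - 1 - k = r - (k + 1) by omega]
  rw [e, add_zero]
  ring

/-- the sum over a column of the square `{0, ..., n} ^ 2` -/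
theorem fiber_sum (F : ℕ → ℕ → ℤ) {a b m : ℕ} (hn : a + b + m = n) (hab : a = 0 ∨ b = 0) :
    ∑ x ∈ range (n + 1) ×ˢ range (n + 1) with (x.1 : ℤ) - x.2 = (a : ℤ) - b, F x.1 x.2 =
      ∑ j ∈ range (m + 1), F (a + j) (b + j) := by
  symm
  refine Finset.sum_bij (fun j _ => (a + j, b + j)) ?_ ?_ ?_ ?_
  · intro j hj
    simp only [mem_range, mem_filter, mem_product] at hj ⊢
    push_cast
    refine ⟨⟨by omega, by omega⟩, by ring⟩
  · intro i _ j _ h
    have := congrArg Prod.fst h
    simp only at this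
    omega
  · rintro ⟨x, y⟩ h
    simp only [mem_range, mem_filter, mem_product] at h
    refine ⟨x - a, ?_, ?_⟩
    · rw [mem_range]
      omega
    · rw [Prod.mk.injEq]
      constructor <;> omega
  · intro j _
    rfl

/-- a sum over the square which is nonnegative on all columns -/
theorem columns_zero (F : ℕ → ℕ → ℤ)
    (h0 : ∑ p ∈ range (n + 1), ∑ q ∈ range (n + 1), F p q = 0)
    (h : ∀ a b m, a + b + m = n → (a = 0 ∨ b = 0) →
      0 ≤ ∑ j ∈ range (m + 1), F (a + j) (b + j))
    {a b m : ℕ} (hn : a + b + m = n) (hab : a = 0 ∨ b = 0) :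
    ∑ j ∈ range (m + 1), F (a + j) (b + j) = 0 := by
  rw [← Finset.sum_product'] at h0
  have h1 := Finset.sum_fiberwise_of_maps_to (s := range (n + 1) ×ˢ range (n + 1))
    (t := Finset.Icc (-(n : ℤ)) n) (g := fun x : ℕ × ℕ => (x.1 : ℤ) - x.2) (by
      rintro ⟨x, y⟩ hx
      simp only [mem_range, mem_product] at hx
      simp only [mem_Icc]
      omega) (fun x => F x.1 x.2)
  rw [h0] at h1
  have h2 : ∀ i ∈ Finset.Icc (-(n : ℤ)) n,
      0 ≤ ∑ x ∈ range (n + 1) ×ˢ range (n + 1) with (x.1 : ℤ) - x.2 = i, F x.1 x.2 := by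
    intro i hi
    rw [mem_Icc] at hi
    obtain ⟨a, b, hab, hi'⟩ : ∃ a b : ℕ, (a = 0 ∨ b = 0) ∧ i = (a : ℤ) - b :=
      ⟨i.toNat, (-i).toNat, by omega, by omega⟩
    rw [hi', fiber_sum F (m := n - a - b) (by omega) hab]
    exact h a b _ (by omega) hab
  have h3 := (Finset.sum_eq_zero_iff_of_nonneg h2).1 h1 ((a : ℤ) - b) (by
    rw [mem_Icc]
    omega)
  rwa [fiber_sum F hn hab] at h3

/-- the weighted sum over one column -/
theorem column_weight {X : HodgeRing n A} {Y : HodgeRing n B} {phi : A ≃ₗ[ℂ] B}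
    (hphi : IsMukaiIsometry X Y phi) {a b r : ℕ} (hn : a + b + 2 * r = n) (hab : a = 0 ∨ b = 0) :
    ∑ j ∈ range (2 * r + 1), (3 * (2 * ((a + j : ℕ) : ℤ) - n) ^ 2 - n) *
        ((Y.h (a + j) (b + j) : ℤ) - X.h (a + j) (b + j)) =
      24 * ∑ k ∈ range r, (((k : ℤ) + 1) ^ 2 - (if (k + 1) % 2 = 1 then 1 else 0)) *
        ((Y.h (a + (r - (k + 1))) (b + (r - (k + 1))) : ℤ) -
          X.h (a + (r - (k + 1))) (b + (r - (k + 1)))) := by
  set D : ℕ → ℤ := fun j => (Y.h (a + j) (b + j) : ℤ) - X.h (a + j) (b + j) with hD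
  have hsym : ∀ k, k ≤ r → D (r + k) = D (r - k) := by
    intro k hk
    simp only [hD]
    rw [X.h_symm hn hk, Y.h_symm hn hk]
  have c0 : ∑ j ∈ range (2 * r + 1), D j = 0 := by
    have := column_sum hphi (a := a) (b := b) (m := 2 * r) (by omega) hab
    simp only [hD]
    rw [Finset.sum_sub_distrib, ← Nat.cast_sum, ← Nat.cast_sum, this, sub_self]
  rw [sum_symm] at c0
  have c1 : ∑ k ∈ range r, (if (k + 1) % 2 = 1 then D (r - (k + 1)) else 0) = 0 := by
    have hm := (main_aux hphi (p := a + r) (q := b + r) (by omega)).1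
    rw [show min (a + r) (b + r) = r by omega, Finset.sum_range_succ', Finset.sum_range_succ']
      at hm
    simp only [Nat.zero_mod, zero_ne_one, if_false, add_zero] at hm
    have e : ∀ k ∈ range r, (if (k + 1) % 2 = 1 then D (r - (k + 1)) else 0) =
        (((if (k + 1) % 2 = 1 then Y.h (a + r - (k + 1)) (b + r - (k + 1)) else 0 : ℕ) : ℤ)) -
        (((if (k + 1) % 2 = 1 then X.h (a + r - (k + 1)) (b + r - (k + 1)) else 0 : ℕ) : ℤ)) := by
      intro k hk
      rw [mem_range] at hk
      split_ifs with h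
      · simp only [hD]
        rw [show a + (r - (k + 1)) = a + r - (k + 1) by omega,
          show b + (r - (k + 1)) = b + r - (k + 1) by omega]
      · simp
    rw [Finset.sum_congr rfl e, Finset.sum_sub_distrib, ← Nat.cast_sum, ← Nat.cast_sum, hm,
      sub_self]
  have e1 : ∀ j ∈ range (2 * r + 1), (3 * (2 * ((a + j : ℕ) : ℤ) - n) ^ 2 - n) *
      ((Y.h (a + j) (b + j) : ℤ) - X.h (a + j) (b + j)) =
      (3 * (((a : ℤ) - b) + 2 * ((j : ℤ) - r)) ^ 2 - n) * D j := by
    intro j _
    simp only [hD]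
    have : (n : ℤ) = a + b + 2 * r := by exact_mod_cast hn.symm
    rw [this]
    push_cast
    ring
  rw [Finset.sum_congr rfl e1, sum_symm]
  have e2 : ∀ k ∈ range r, ((3 * (((a : ℤ) - b) + 2 * (((r + (k + 1) : ℕ) : ℤ) - r)) ^ 2 - n) *
        D (r + (k + 1)) +
      (3 * (((a : ℤ) - b) + 2 * (((r - (k + 1) : ℕ) : ℤ) - r)) ^ 2 - n) * D (r - (k + 1))) =
      (3 * ((a : ℤ) - b) ^ 2 - n) * (D (r + (k + 1)) + D (r - (k + 1))) +
        24 * (((k : ℤ) + 1) ^ 2 * D (r - (k + 1))) := by
    intro k hk
    rw [mem_range] at hk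
    rw [hsym (k + 1) (by omega), Nat.cast_sub (show k + 1 ≤ r by omega)]
    push_cast
    ring
  rw [Finset.sum_congr rfl e2, Finset.sum_add_distrib, ← Finset.mul_sum, ← Finset.mul_sum]
  have e3 : ∑ k ∈ range r, (((k : ℤ) + 1) ^ 2 - (if (k + 1) % 2 = 1 then 1 else 0)) *
      D (r - (k + 1)) = ∑ k ∈ range r, ((k : ℤ) + 1) ^ 2 * D (r - (k + 1)) := by
    have e5 : ∑ k ∈ range r, (((k : ℤ) + 1) ^ 2 - (if (k + 1) % 2 = 1 then 1 else 0)) *
        D (r - (k + 1)) = ∑ k ∈ range r, ((k : ℤ) + 1) ^ 2 * D (r - (k + 1)) -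
        ∑ k ∈ range r, (if (k + 1) % 2 = 1 then D (r - (k + 1)) else 0) := by
      rw [← Finset.sum_sub_distrib]
      refine Finset.sum_congr rfl fun k _ => ?_
      split_ifs <;> ring
    rw [e5, c1, sub_zero]
  have e4 : ∑ k ∈ range r, (D (r + (k + 1)) + D (r - (k + 1))) = -D r := by linarith
  rw [e4]
  show _ = 24 * ∑ k ∈ range r, (((k : ℤ) + 1) ^ 2 - (if (k + 1) % 2 = 1 then 1 else 0)) *
      D (r - (k + 1))
  rw [e3]
  ring

/-- second theorem: with the Chern number two more degrees are free -/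
theorem extremal_chern {X : HodgeRing n A} {Y : HodgeRing n B} {phi : A ≃ₗ[ℂ] B}
    (hphi : IsMukaiIsometry X Y phi) (hc : X.chernNumber = Y.chernNumber)
    (h : ∀ p q, p + q < n → (p + q + 4 ≤ n ∨ Odd (n - (p + q))) → X.h p q = least p q)
    (p q : ℕ) : X.h p q = Y.h p q := by
  have hodd : ∀ p q, Odd (p + q + n) → X.h p q = Y.h p q := fun p q h1 =>
    column_odd hphi (fun p q h2 h3 => h p q h2 (Or.inr h3)) h1
  -- the differences far from the middle are nonnegative
  have hpos : ∀ p q, p + q + 4 ≤ n → (0 : ℤ) ≤ (Y.h p q : ℤ) - X.h p q := by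
    intro p q h1
    have h2 := Y.least_le (p := p) (q := q) (by omega) (by omega)
    rw [← h p q (by omega) (Or.inl h1)] at h2
    omega
  let F : ℕ → ℕ → ℤ := fun p q => (-1) ^ (p + q + n) * ((3 * (2 * (p : ℤ) - n) ^ 2 - n) *
    ((Y.h p q : ℤ) - X.h p q))
  have h0 : ∑ p ∈ range (n + 1), ∑ q ∈ range (n + 1), F p q = 0 := by
    have e : ∑ p ∈ range (n + 1), ∑ q ∈ range (n + 1), F p q =
        (-1) ^ n * (Y.chernNumber - X.chernNumber) := by
      unfold HodgeRing.chernNumber
      rw [← Finset.sum_sub_distrib, Finset.mul_sum]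
      refine Finset.sum_congr rfl fun p _ => ?_
      rw [← Finset.sum_sub_distrib, Finset.mul_sum]
      refine Finset.sum_congr rfl fun q _ => ?_
      simp only [F]
      rw [pow_add]
      ring
    rw [e, hc, sub_self, mul_zero]
  -- one column
  have hcol : ∀ a b r, a + b + 2 * r = n → (a = 0 ∨ b = 0) →
      ∑ j ∈ range (2 * r + 1), F (a + j) (b + j) =
      24 * ∑ k ∈ range r, (((k : ℤ) + 1) ^ 2 - (if (k + 1) % 2 = 1 then 1 else 0)) *
        ((Y.h (a + (r - (k + 1))) (b + (r - (k + 1))) : ℤ) -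
          X.h (a + (r - (k + 1))) (b + (r - (k + 1)))) := by
    intro a b r hn hab
    rw [← column_weight hphi hn hab]
    refine Finset.sum_congr rfl fun j _ => ?_
    simp only [F]
    have : Even (a + j + (b + j) + n) := by
      rw [Nat.even_iff]
      omega
    rw [this.neg_one_pow, one_mul]
  have hterm : ∀ a b r, a + b + 2 * r = n → (a = 0 ∨ b = 0) → ∀ k ∈ range r,
      (0 : ℤ) ≤ (((k : ℤ) + 1) ^ 2 - (if (k + 1) % 2 = 1 then 1 else 0)) *
        ((Y.h (a + (r - (k + 1))) (b + (r - (k + 1))) : ℤ) -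
          X.h (a + (r - (k + 1))) (b + (r - (k + 1)))) := by
    intro a b r hn hab k hk
    rw [mem_range] at hk
    rcases Nat.eq_zero_or_pos k with hk0 | hk0
    · subst hk0
      simp
    · refine mul_nonneg ?_ (hpos _ _ (by omega))
      have : (1 : ℤ) ≤ k := by exact_mod_cast hk0
      split_ifs <;> nlinarith
  have hzero : ∀ a b r, a + b + 2 * r = n → (a = 0 ∨ b = 0) → ∀ k, k + 2 ≤ r →
      X.h (a + (r - (k + 2))) (b + (r - (k + 2))) = Y.h (a + (r - (k + 2))) (b + (r - (k + 2))) := by
    intro a b r hn hab k hk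
    have h1 := columns_zero F h0 (fun a b m hn hab => ?_) (a := a) (b := b) (m := 2 * r)
      (by omega) hab
    · rw [hcol a b r hn hab] at h1
      have h2 := (Finset.sum_eq_zero_iff_of_nonneg (hterm a b r hn hab)).1 (by linarith) (k + 1)
        (by rw [mem_range]; omega)
      rw [show k + 1 + 1 = k + 2 by ring] at h2
      rcases mul_eq_zero.1 h2 with h3 | h3
      · exfalso
        push_cast at h3
        have : (0 : ℤ) ≤ k := by positivity
        split_ifs at h3 <;> nlinarith
      · omega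
    · rcases Nat.even_or_odd' m with ⟨r, rfl | rfl⟩
      · rw [hcol a b r (by omega) hab]
        exact mul_nonneg (by norm_num) (Finset.sum_nonneg (hterm a b r (by omega) hab))
      · refine Finset.sum_nonneg fun j _ => ?_
        simp only [F]
        rw [hodd (a + j) (b + j) (by rw [Nat.odd_iff]; omega), sub_self, mul_zero, mul_zero]
  refine reduce X Y (fun _ _ => True) (fun _ _ _ => trivial) (fun _ _ _ _ _ => trivial)
    (fun p q hqp hpq _ => ?_) p q trivial
  rcases Nat.even_or_odd (p + q + n) with he | ho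
  swap
  · exact hodd p q ho
  rw [Nat.even_iff] at he
  obtain ⟨a, r, hp, hn⟩ : ∃ a r, p = a + q ∧ n = a + 2 * r :=
    ⟨p - q, (n - (p - q)) / 2, by omega, by omega⟩
  subst hp
  have hz : ∀ s, s + 2 ≤ r → X.h (a + s) s = Y.h (a + s) s := by
    intro s hs
    have := hzero a 0 r (by omega) (Or.inr rfl) (r - 2 - s) (by omega)
    rwa [show r - (r - 2 - s + 2) = s by omega, zero_add] at this
  have hm := main_aux hphi (p := a + r) (q := r) (by omega)
  rw [show min (a + r) r = r by omega] at hm
  rcases Nat.lt_or_ge (q + 1) r with h1 | h1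
  · exact hz q (by omega)
  rcases Nat.eq_zero_or_pos r with hr | hr
  · subst hr
    have hm2 := hm.2
    simp only [zero_add, Finset.sum_range_one, Nat.zero_mod, if_true, Nat.sub_zero] at hm2
    obtain rfl : q = 0 := by omega
    omega
  obtain ⟨s, rfl⟩ : ∃ s, r = s + 1 := ⟨r - 1, by omega⟩
  have e0 : ∀ t : ℕ, ∑ k ∈ range s, (if (k + 1 + 1) % 2 = t then
      X.h (a + (s + 1) - (k + 1 + 1)) (s + 1 - (k + 1 + 1)) else 0) =
      ∑ k ∈ range s, (if (k + 1 + 1) % 2 = t then
      Y.h (a + (s + 1) - (k + 1 + 1)) (s + 1 - (k + 1 + 1)) else 0) := by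
    intro t
    refine Finset.sum_congr rfl fun k hk => ?_
    rw [mem_range] at hk
    split_ifs with e
    · rw [show a + (s + 1) - (k + 1 + 1) = a + (s + 1 - (k + 1 + 1)) by omega]
      exact hz _ (by omega)
    · rfl
  obtain ⟨m1, m2⟩ := hm
  rw [Finset.sum_range_succ', Finset.sum_range_succ', Finset.sum_range_succ',
    Finset.sum_range_succ', e0 1] at m1
  rw [Finset.sum_range_succ', Finset.sum_range_succ', Finset.sum_range_succ',
    Finset.sum_range_succ', e0 0] at m2
  norm_num at m1 m2
  rcases Nat.lt_or_ge q (s + 1) with h2 | h2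
  · obtain rfl : q = s := by omega
    exact m1
  · obtain rfl : q = s + 1 := by omega
    omega

end Pool.Agent.Hodge81
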